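import Mathlib

/-!
Mahler's quadratic analogue of the Farey determinant property fails for `n = 7`.
-/

namespace Pool.Agent.Results.MP_ca606e_nt.QuadraticFarey

/-- A row `(a, b, c)` together with its root, an element of `ℝ ∪ {∞}`. -/
abbrev Entry := (ℤ × ℤ × ℤ) × WithTop ℝ

/-- The rows `q x - p = 0` for reduced positive rationals `p / q` with `1 ≤ p, q ≤ n`. -/
def IsRationalEntry (n : ℕ) (e : Entry) : Prop :=
  ∃ p q : ℕ, 1 ≤ p ∧ p ≤ n ∧ 1 ≤ q ∧ q ≤ n ∧ Nat.Coprime p q ∧
    e = ((0, (q : ℤ), -(p : ℤ)), (((p : ℝ) / (q : ℝ) : ℝ) : WithTop ℝ))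

/-- The rows of primitive quadratics of height at most `n` with a positive irrational root. -/
def IsIrrationalEntry (n : ℕ) (e : Entry) : Prop :=
  ∃ (a b c : ℤ) (θ : ℝ), 0 < θ ∧ Irrational θ ∧ (a : ℝ) * θ ^ 2 + (b : ℝ) * θ + (c : ℝ) = 0 ∧
    1 ≤ a ∧ Nat.gcd (Int.gcd a b) (Int.natAbs c) = 1 ∧ a ≤ (n : ℤ) ∧ |b| ≤ (n : ℤ) ∧
    |c| ≤ (n : ℤ) ∧ e = ((a, b, c), (θ : WithTop ℝ))

/-- The two end rows, with roots `0` and `∞`. -/
def IsEndEntry (e : Entry) : Prop :=
  e = ((0, 1, 0), ((0 : ℝ) : WithTop ℝ)) ∨ e = ((0, 0, 1), (⊤ : WithTop ℝ))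

open Classical in
/-- How often an entry occurs in `L_n`: rational rows twice, the other rows once. -/
noncomputable def mult (n : ℕ) (e : Entry) : ℕ :=
  if IsRationalEntry n e then 2 else if IsIrrationalEntry n e ∨ IsEndEntry e then 1 else 0

/-- `L` is the list `L_n`: ordered by increasing root, with the prescribed multiplicities. -/
def IsMahlerList (n : ℕ) (L : List Entry) : Prop :=
  L.Pairwise (fun e e' => e.2 ≤ e'.2) ∧ ∀ e, Multiset.count e (L : Multiset Entry) = mult n e

/-- The determinant of the `3 × 3` matrix with the given rows. -/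
def det3 (x y z : ℤ × ℤ × ℤ) : ℤ :=
  Matrix.det !![x.1, x.2.1, x.2.2; y.1, y.2.1, y.2.2; z.1, z.2.1, z.2.2]

/-- integer check that `a t^2 + b t + c` has no zero on `[453/2000, 29/125]` -/
def chk (a b c : ℤ) : Bool :=
  let Fu := a * 205209 + b * 906000 + c * 4000000
  let Fv := a * 841 + b * 3625 + c * 15625
  (decide (Fu < 0) && decide (Fv < 0)) ||
  (decide (0 < Fu) && decide (0 < Fv) &&
    (decide (0 ≤ 906 * a + 2000 * b) || decide (58 * a + 125 * b ≤ 0) ||
      decide (b * b - 4 * a * c < 0)))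

theorem chk_all : ∀ a ∈ Finset.Icc (1 : ℤ) 7, ∀ b ∈ Finset.Icc (-7 : ℤ) 7,
    ∀ c ∈ Finset.Icc (-7 : ℤ) 7,
      chk a b c = true ∨ (a, b, c) = (7, -6, 1) ∨ (a, b, c) = (6, 3, -1) ∨
        (a, b, c) = (7, 7, -2) := by
  decide +kernel

theorem chk_sound (a b c : ℤ) (ha : 1 ≤ a) (h : chk a b c = true) (t : ℝ)
    (hu : 453 / 2000 ≤ t) (hv : t ≤ 29 / 125) :
    (a : ℝ) * t ^ 2 + (b : ℝ) * t + (c : ℝ) ≠ 0 := by
  have ha' : (1 : ℝ) ≤ a := by exact_mod_cast ha
  simp only [chk, Bool.or_eq_true, Bool.and_eq_true, decide_eq_true_eq] at h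
  rcases h with ⟨h1, h2⟩ | ⟨⟨h1, h2⟩, h3⟩
  · have h1' : (a : ℝ) * 205209 + b * 906000 + c * 4000000 < 0 := by exact_mod_cast h1
    have h2' : (a : ℝ) * 841 + b * 3625 + c * 15625 < 0 := by exact_mod_cast h2
    have h4 : 0 ≤ (t - 453 / 2000) * (29 / 125 - t) :=
      mul_nonneg (by linarith) (by linarith)
    have h5 : 0 ≤ (a : ℝ) * ((t - 453 / 2000) * (29 / 125 - t)) :=
      mul_nonneg (by linarith) h4
    have h6 : ((a : ℝ) * t ^ 2 + b * t + c) * (11 / 2000) ≤
        ((a : ℝ) * 205209 + b * 906000 + c * 4000000) / 4000000 * (29 / 125 - t) +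
        ((a : ℝ) * 841 + b * 3625 + c * 15625) / 15625 * (t - 453 / 2000) := by
      nlinarith [h5]
    have h7 : ((a : ℝ) * 205209 + b * 906000 + c * 4000000) / 4000000 * (29 / 125 - t) +
        ((a : ℝ) * 841 + b * 3625 + c * 15625) / 15625 * (t - 453 / 2000) < 0 := by
      rcases lt_or_ge t (29 / 125) with h8 | h8
      · have e1 : ((a : ℝ) * 205209 + b * 906000 + c * 4000000) / 4000000 * (29 / 125 - t) < 0 :=
          mul_neg_of_neg_of_pos (by linarith) (by linarith)
        have e2 : ((a : ℝ) * 841 + b * 3625 + c * 15625) / 15625 * (t - 453 / 2000) ≤ 0 :=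
          mul_nonpos_of_nonpos_of_nonneg (by linarith) (by linarith)
        linarith
      · have : t = 29 / 125 := le_antisymm hv h8
        subst this
        have e2 : ((a : ℝ) * 841 + b * 3625 + c * 15625) / 15625 * (29 / 125 - 453 / 2000) < 0 :=
          mul_neg_of_neg_of_pos (by linarith) (by norm_num)
        linarith
    intro h0
    rw [h0] at h6
    linarith
  · have h1' : 0 < (a : ℝ) * 205209 + b * 906000 + c * 4000000 := by exact_mod_cast h1
    have h2' : 0 < (a : ℝ) * 841 + b * 3625 + c * 15625 := by exact_mod_cast h2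
    rcases h3 with (h3 | h3) | h3
    · have h3' : 0 ≤ 906 * (a : ℝ) + 2000 * b := by exact_mod_cast h3
      have h4 : 0 ≤ (a : ℝ) * (t + 453 / 2000) + b := by nlinarith
      have h5 : 0 ≤ (t - 453 / 2000) * ((a : ℝ) * (t + 453 / 2000) + b) :=
        mul_nonneg (by linarith) h4
      intro h0
      nlinarith
    · have h3' : 58 * (a : ℝ) + 125 * b ≤ 0 := by exact_mod_cast h3
      have h4 : (a : ℝ) * (t + 29 / 125) + b ≤ 0 := by nlinarith
      have h5 : 0 ≤ (t - 29 / 125) * ((a : ℝ) * (t + 29 / 125) + b) :=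
        mul_nonneg_of_nonpos_of_nonpos (by linarith) h4
      intro h0
      nlinarith
    · have h3' : (b : ℝ) * b - 4 * a * c < 0 := by exact_mod_cast h3
      intro h0
      have h4 : (2 * (a : ℝ) * t + b) ^ 2 = (b * b - 4 * a * c) +
          4 * a * ((a : ℝ) * t ^ 2 + b * t + c) := by ring
      rw [h0] at h4
      nlinarith [sq_nonneg (2 * (a : ℝ) * t + b)]

noncomputable def rα : ℝ := (3 - √2) / 7
noncomputable def rβ : ℝ := (-3 + √33) / 12
noncomputable def rγ : ℝ := (-7 + √105) / 14

theorem sqrt2_lt : √2 < 1.4143 := by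
  rw [Real.sqrt_lt' (by norm_num)]; norm_num
theorem lt_sqrt2 : 1.414 < √2 := by
  rw [Real.lt_sqrt (by norm_num)]; norm_num
theorem sqrt33_lt : √33 < 5.75 := by
  rw [Real.sqrt_lt' (by norm_num)]; norm_num
theorem lt_sqrt33 : 5.74 < √33 := by
  rw [Real.lt_sqrt (by norm_num)]; norm_num
theorem sqrt105_lt : √105 < 10.247 := by
  rw [Real.sqrt_lt' (by norm_num)]; norm_num
theorem lt_sqrt105 : 10.24 < √105 := by
  rw [Real.lt_sqrt (by norm_num)]; norm_num

theorem α_bounds : 453 / 2000 < rα ∧ rα < 0.227 := by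
  have := sqrt2_lt; have := lt_sqrt2
  unfold rα; constructor <;> linarith
theorem β_bounds : 0.228 < rβ ∧ rβ < 0.23 := by
  have := sqrt33_lt; have := lt_sqrt33
  unfold rβ; constructor <;> linarith
theorem γ_bounds : 0.231 < rγ ∧ rγ < 29 / 125 := by
  have := sqrt105_lt; have := lt_sqrt105
  unfold rγ; constructor <;> linarith

theorem α_root : 7 * rα ^ 2 + -6 * rα + 1 = 0 := by
  have : √2 ^ 2 = 2 := Real.sq_sqrt (by norm_num)
  unfold rα; linear_combination (1 / 7 : ℝ) * this
theorem β_root : 6 * rβ ^ 2 + 3 * rβ + -1 = 0 := by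
  have : √33 ^ 2 = 33 := Real.sq_sqrt (by norm_num)
  unfold rβ; linear_combination (1 / 24 : ℝ) * this
theorem γ_root : 7 * rγ ^ 2 + 7 * rγ + -2 = 0 := by
  have : √105 ^ 2 = 105 := Real.sq_sqrt (by norm_num)
  unfold rγ; linear_combination (1 / 28 : ℝ) * this

theorem α_irr : Irrational rα := by
  have h := irrational_sqrt_two
  have h1 : Irrational (3 - √2) := by
    have := h.ratCast_sub 3
    simpa using this
  have := h1.div_ratCast (q := 7) (by norm_num)
  unfold rα
  exact_mod_cast this
theorem sqrt33_irr : Irrational (√33) := by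
  rw [irrational_sqrt_ofNat_iff]
  intro ⟨r, hr⟩
  have h1 : r < 6 := by by_contra h; push Not at h; nlinarith
  interval_cases r <;> omega
theorem sqrt105_irr : Irrational (√105) := by
  rw [irrational_sqrt_ofNat_iff]
  intro ⟨r, hr⟩
  have h1 : r < 11 := by by_contra h; push Not at h; nlinarith
  interval_cases r <;> omega
theorem β_irr : Irrational rβ := by
  have h1 : Irrational (-3 + √33) := by
    have := sqrt33_irr.ratCast_add (-3)
    simpa using this
  have := h1.div_ratCast (q := 12) (by norm_num)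
  unfold rβ
  exact_mod_cast this
theorem γ_irr : Irrational rγ := by
  have h1 : Irrational (-7 + √105) := by
    have := sqrt105_irr.ratCast_add (-7)
    simpa using this
  have := h1.div_ratCast (q := 14) (by norm_num)
  unfold rγ
  exact_mod_cast this

noncomputable def ex : Entry := ((7, -6, 1), (rα : WithTop ℝ))
noncomputable def ey : Entry := ((6, 3, -1), (rβ : WithTop ℝ))
noncomputable def ez : Entry := ((7, 7, -2), (rγ : WithTop ℝ))

theorem ex_irr : IsIrrationalEntry 7 ex :=
  ⟨7, -6, 1, rα, by have := α_bounds; linarith, α_irr, by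
    have := α_root; push_cast; linarith, by norm_num, by decide, by norm_num, by norm_num,
    by norm_num, rfl⟩
theorem ey_irr : IsIrrationalEntry 7 ey :=
  ⟨6, 3, -1, rβ, by have := β_bounds; linarith, β_irr, by
    have := β_root; push_cast; linarith, by norm_num, by decide, by norm_num, by norm_num,
    by norm_num, rfl⟩
theorem ez_irr : IsIrrationalEntry 7 ez :=
  ⟨7, 7, -2, rγ, by have := γ_bounds; linarith, γ_irr, by
    have := γ_root; push_cast; linarith, by norm_num, by decide, by norm_num, by norm_num,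
    by norm_num, rfl⟩

theorem not_rat_of_pos {n : ℕ} {e : Entry} (h : e.1.1 ≠ 0) : ¬ IsRationalEntry n e := by
  rintro ⟨p, q, -, -, -, -, -, rfl⟩
  exact h rfl

theorem mult_ex : mult 7 ex = 1 := by
  rw [mult, if_neg (not_rat_of_pos (by decide)), if_pos (Or.inl ex_irr)]
theorem mult_ey : mult 7 ey = 1 := by
  rw [mult, if_neg (not_rat_of_pos (by decide)), if_pos (Or.inl ey_irr)]
theorem mult_ez : mult 7 ez = 1 := by
  rw [mult, if_neg (not_rat_of_pos (by decide)), if_pos (Or.inl ez_irr)]

/-- The only entries of `L_7` with root between those of `ex` and `ez`. -/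
theorem between (e : Entry) (he : mult 7 e ≠ 0) (h1 : ex.2 ≤ e.2) (h2 : e.2 ≤ ez.2) :
    e = ex ∨ e = ey ∨ e = ez := by
  have hα := α_bounds
  have hβ := β_bounds
  have hγ := γ_bounds
  have hcase : IsRationalEntry 7 e ∨ IsIrrationalEntry 7 e ∨ IsEndEntry e := by
    by_contra hcon
    push Not at hcon
    apply he
    rw [mult, if_neg hcon.1, if_neg]
    rintro (h | h)
    · exact hcon.2.1 h
    · exact hcon.2.2 h
  rcases hcase with h | h | h
  · obtain ⟨p, q, hp1, hp2, hq1, hq2, -, rfl⟩ := h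
    exfalso
    have h1' : rα ≤ (p : ℝ) / q := by
      simpa [ex] using h1
    have h2' : (p : ℝ) / q ≤ rγ := by
      simpa [ez] using h2
    have hq0 : (0 : ℝ) < q := by exact_mod_cast hq1
    have h3 : 453 / 2000 < (p : ℝ) / q := by linarith
    have h4 : (p : ℝ) / q < 29 / 125 := by linarith
    rw [lt_div_iff₀ hq0] at h3
    rw [div_lt_iff₀ hq0] at h4
    have h5 : 453 * (q : ℝ) < 2000 * p := by linarith
    have h6 : 125 * (p : ℝ) < 29 * q := by linarith
    have h5' : 453 * q < 2000 * p := by exact_mod_cast h5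
    have h6' : 125 * p < 29 * q := by exact_mod_cast h6
    clear he h1 h2 h1' h2' h3 h4 h5 h6 hq0
    interval_cases q <;> omega
  · obtain ⟨a, b, c, θ, hθ, -, hroot, ha, -, ha7, hb, hc, rfl⟩ := h
    have h1' : rα ≤ θ := by simpa [ex] using h1
    have h2' : θ ≤ rγ := by simpa [ez] using h2
    have hb' := abs_le.1 hb
    have hc' := abs_le.1 hc
    have hchk := chk_all a (Finset.mem_Icc.2 ⟨ha, by exact_mod_cast ha7⟩) b
      (Finset.mem_Icc.2 ⟨by exact_mod_cast hb'.1, by exact_mod_cast hb'.2⟩) c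
      (Finset.mem_Icc.2 ⟨by exact_mod_cast hc'.1, by exact_mod_cast hc'.2⟩)
    rcases hchk with h | h | h | h
    · exact absurd hroot (chk_sound a b c ha h θ (by linarith) (by linarith))
    · simp only [Prod.mk.injEq] at h
      obtain ⟨rfl, rfl, rfl⟩ := h
      left
      have h3 := α_root
      push_cast at hroot
      have h4 : (θ - rα) * (7 * (θ + rα) - 6) = 0 := by nlinarith
      rcases mul_eq_zero.1 h4 with h5 | h5
      · have : θ = rα := by linarith
        rw [this]; rfl
      · exfalso; linarith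
    · simp only [Prod.mk.injEq] at h
      obtain ⟨rfl, rfl, rfl⟩ := h
      right; left
      have h3 := β_root
      push_cast at hroot
      have h4 : (θ - rβ) * (6 * (θ + rβ) + 3) = 0 := by nlinarith
      rcases mul_eq_zero.1 h4 with h5 | h5
      · have : θ = rβ := by linarith
        rw [this]; rfl
      · exfalso; linarith
    · simp only [Prod.mk.injEq] at h
      obtain ⟨rfl, rfl, rfl⟩ := h
      right; right
      have h3 := γ_root
      push_cast at hroot
      have h4 : (θ - rγ) * (7 * (θ + rγ) + 7) = 0 := by nlinarith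
      rcases mul_eq_zero.1 h4 with h5 | h5
      · have : θ = rγ := by linarith
        rw [this]; rfl
      · exfalso; linarith
  · exfalso
    rcases h with rfl | rfl
    · have h1' : rα ≤ 0 := by simpa [ex] using h1
      linarith
    · have : (⊤ : WithTop ℝ) ≤ (rγ : WithTop ℝ) := h2
      simp at this

theorem finite_roots (a b c : ℤ) (ha : 1 ≤ a) :
    {θ : ℝ | (a : ℝ) * θ ^ 2 + (b : ℝ) * θ + (c : ℝ) = 0}.Finite := by
  have ha' : (a : ℝ) ≠ 0 := by
    have : (1 : ℝ) ≤ a := by exact_mod_cast ha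
    linarith
  rcases Set.eq_empty_or_nonempty {θ : ℝ | (a : ℝ) * θ ^ 2 + (b : ℝ) * θ + (c : ℝ) = 0} with h | h
  · rw [h]; exact Set.finite_empty
  · obtain ⟨θ₀, h0⟩ := h
    refine (Set.toFinite {θ₀, -(b : ℝ) / a - θ₀}).subset ?_
    intro θ hθ
    simp only [Set.mem_ofPred_eq] at h0 hθ
    have h1 : (θ - θ₀) * ((a : ℝ) * (θ + θ₀) + b) = 0 := by linear_combination hθ - h0
    rcases mul_eq_zero.1 h1 with h2 | h2
    · left; linarith
    · right
      rw [Set.mem_singleton_iff]
      field_simp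
      linarith

theorem finite_support (n : ℕ) : {e : Entry | mult n e ≠ 0}.Finite := by
  have h1 : {e : Entry | IsRationalEntry n e}.Finite := by
    refine ((Finset.Icc 1 n ×ˢ Finset.Icc 1 n).finite_toSet.image (fun pq : ℕ × ℕ =>
      (((0, (pq.2 : ℤ), -(pq.1 : ℤ)), (((pq.1 : ℝ) / (pq.2 : ℝ) : ℝ) : WithTop ℝ)) : Entry))).subset
        ?_
    rintro e ⟨p, q, hp1, hp2, hq1, hq2, -, rfl⟩
    exact ⟨(p, q), by simp [hp1, hp2, hq1, hq2], rfl⟩
  have h2 : {e : Entry | IsIrrationalEntry n e}.Finite := by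
    have hfin : (⋃ abc ∈ ((Finset.Icc (1 : ℤ) n ×ˢ (Finset.Icc (-(n : ℤ)) n ×ˢ
        Finset.Icc (-(n : ℤ)) n) : Finset (ℤ × ℤ × ℤ)) : Set (ℤ × ℤ × ℤ)),
        (fun θ : ℝ => ((abc, (θ : WithTop ℝ)) : Entry)) ''
          {θ : ℝ | (abc.1 : ℝ) * θ ^ 2 + (abc.2.1 : ℝ) * θ + (abc.2.2 : ℝ) = 0}).Finite := by
      refine Set.Finite.biUnion (Finset.finite_toSet _) ?_
      intro abc habc
      refine Set.Finite.image _ (finite_roots _ _ _ ?_)
      simp only [Finset.coe_product, Set.mem_prod, Finset.coe_Icc, Set.mem_Icc] at habc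
      exact habc.1.1
    refine hfin.subset ?_
    rintro e ⟨a, b, c, θ, hθ, -, hroot, ha, -, han, hb, hc, rfl⟩
    have hb' := abs_le.1 hb
    have hc' := abs_le.1 hc
    simp only [Set.mem_iUnion]
    refine ⟨(a, b, c), ?_, θ, hroot, rfl⟩
    simp only [Finset.coe_product, Set.mem_prod, Finset.coe_Icc, Set.mem_Icc]
    exact ⟨⟨ha, han⟩, ⟨hb'.1, hb'.2⟩, ⟨hc'.1, hc'.2⟩⟩
  have h3 : {e : Entry | IsEndEntry e}.Finite := by
    refine (Set.toFinite {((0, 1, 0), ((0 : ℝ) : WithTop ℝ)), ((0, 0, 1), (⊤ : WithTop ℝ))}).subset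
      ?_
    rintro e (rfl | rfl) <;> simp
  refine ((h1.union h2).union h3).subset ?_
  intro e he
  by_contra hcon
  simp only [Set.mem_union, Set.mem_ofPred_eq, not_or] at hcon
  apply he
  rw [mult, if_neg hcon.1.1, if_neg]
  rintro (h | h)
  · exact hcon.1.2 h
  · exact hcon.2 h

noncomputable def entries (n : ℕ) : Multiset Entry :=
  ∑ e ∈ (finite_support n).toFinset, Multiset.replicate (mult n e) e

theorem count_entries (n : ℕ) (e : Entry) : (entries n).count e = mult n e := by
  rw [entries, Multiset.count_sum']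
  simp only [Multiset.count_replicate]
  rw [Finset.sum_ite_eq']
  split_ifs with h
  · rfl
  · simp only [Set.Finite.mem_toFinset, Set.mem_ofPred_eq, not_not] at h
    exact h.symm

/-- The relation used for sorting. -/
def rel (e e' : Entry) : Prop := e.2 ≤ e'.2

noncomputable instance : DecidableRel rel := fun _ _ => Classical.dec _
instance : Std.Total rel := ⟨fun e e' => le_total e.2 e'.2⟩
instance : IsTrans Entry rel := ⟨fun _ _ _ h h' => le_trans h h'⟩

noncomputable def L₁ : List Entry :=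
  ((entries 7).filter (fun e => e.2 < ex.2)).toList.insertionSort rel
noncomputable def L₂ : List Entry :=
  ((entries 7).filter (fun e => ez.2 < e.2)).toList.insertionSort rel

theorem coe_L₁ : (L₁ : Multiset Entry) = (entries 7).filter (fun e => e.2 < ex.2) := by
  rw [L₁, Multiset.coe_eq_coe.2 (List.perm_insertionSort rel _), Multiset.coe_toList]
theorem coe_L₂ : (L₂ : Multiset Entry) = (entries 7).filter (fun e => ez.2 < e.2) := by
  rw [L₂, Multiset.coe_eq_coe.2 (List.perm_insertionSort rel _), Multiset.coe_toList]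
theorem count_L₁ (e : Entry) :
    Multiset.count e (L₁ : Multiset Entry) = if e.2 < ex.2 then mult 7 e else 0 := by
  rw [coe_L₁, Multiset.count_filter, count_entries]
theorem count_L₂ (e : Entry) :
    Multiset.count e (L₂ : Multiset Entry) = if ez.2 < e.2 then mult 7 e else 0 := by
  rw [coe_L₂, Multiset.count_filter, count_entries]
theorem mem_L₁ {e : Entry} (h : e ∈ L₁) : e.2 < ex.2 := by
  rw [← Multiset.mem_coe, coe_L₁, Multiset.mem_filter] at h
  exact h.2
theorem mem_L₂ {e : Entry} (h : e ∈ L₂) : ez.2 < e.2 := by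
  rw [← Multiset.mem_coe, coe_L₂, Multiset.mem_filter] at h
  exact h.2

theorem xy : ex.2 < ey.2 := by
  have := α_bounds; have := β_bounds
  show (rα : WithTop ℝ) < (rβ : WithTop ℝ)
  rw [WithTop.coe_lt_coe]; linarith
theorem yz : ey.2 < ez.2 := by
  have := γ_bounds; have := β_bounds
  show (rβ : WithTop ℝ) < (rγ : WithTop ℝ)
  rw [WithTop.coe_lt_coe]; linarith

theorem isMahlerList : IsMahlerList 7 (L₁ ++ ex :: ey :: ez :: L₂) := by
  have hxy := xy
  have hyz := yz
  constructor
  · rw [List.pairwise_append]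
    refine ⟨List.pairwise_insertionSort rel _, ?_, ?_⟩
    · rw [List.pairwise_cons, List.pairwise_cons, List.pairwise_cons]
      refine ⟨?_, ?_, ?_, List.pairwise_insertionSort rel _⟩
      · intro e he
        simp only [List.mem_cons] at he
        rcases he with rfl | rfl | he
        · exact hxy.le
        · exact (hxy.trans hyz).le
        · exact (hxy.trans (hyz.trans (mem_L₂ he))).le
      · intro e he
        simp only [List.mem_cons] at he
        rcases he with rfl | he
        · exact hyz.le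
        · exact (hyz.trans (mem_L₂ he)).le
      · intro e he
        exact (mem_L₂ he).le
    · intro e he e' he'
      have h1 := mem_L₁ he
      simp only [List.mem_cons] at he'
      rcases he' with rfl | rfl | rfl | he'
      · exact h1.le
      · exact (h1.trans hxy).le
      · exact (h1.trans (hxy.trans hyz)).le
      · exact (h1.trans (hxy.trans (hyz.trans (mem_L₂ he')))).le
  · intro e
    rw [← Multiset.coe_add, ← Multiset.cons_coe, ← Multiset.cons_coe, ← Multiset.cons_coe,
      Multiset.count_add, Multiset.count_cons, Multiset.count_cons, Multiset.count_cons,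
      count_L₁, count_L₂]
    have nxy : ex ≠ ey := fun h => by rw [h] at hxy; exact lt_irrefl _ hxy
    have nyz : ey ≠ ez := fun h => by rw [h] at hyz; exact lt_irrefl _ hyz
    have nxz : ex ≠ ez := fun h => by have := hxy.trans hyz; rw [h] at this; exact lt_irrefl _ this
    by_cases h1 : e.2 < ex.2
    · have a1 : ¬ ez.2 < e.2 := not_lt.2 ((h1.trans (hxy.trans hyz)).le)
      have a2 : ¬ e = ex := fun h => by rw [h] at h1; exact lt_irrefl _ h1
      have a3 : ¬ e = ey := fun h => by rw [h] at h1; exact lt_asymm hxy h1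
      have a4 : ¬ e = ez := fun h => by rw [h] at h1; exact lt_asymm (hxy.trans hyz) h1
      rw [if_pos h1, if_neg a1, if_neg a2, if_neg a3, if_neg a4]; rfl
    · by_cases h2 : ez.2 < e.2
      · have a2 : ¬ e = ex := fun h => by rw [h] at h2; exact lt_asymm (hxy.trans hyz) h2
        have a3 : ¬ e = ey := fun h => by rw [h] at h2; exact lt_asymm hyz h2
        have a4 : ¬ e = ez := fun h => by rw [h] at h2; exact lt_irrefl _ h2
        rw [if_neg h1, if_pos h2, if_neg a2, if_neg a3, if_neg a4, zero_add]; rfl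
      · by_cases h3 : mult 7 e = 0
        · have a2 : ¬ e = ex := fun h => by rw [h, mult_ex] at h3; omega
          have a3 : ¬ e = ey := fun h => by rw [h, mult_ey] at h3; omega
          have a4 : ¬ e = ez := fun h => by rw [h, mult_ez] at h3; omega
          rw [if_neg h1, if_neg h2, if_neg a2, if_neg a3, if_neg a4, h3]
        · rcases between e h3 (not_lt.1 h1) (not_lt.1 h2) with h | h | h
          · rw [if_neg h1, if_neg h2, h, if_pos rfl, if_neg nxy, if_neg nxz, mult_ex]
          · rw [if_neg h1, if_neg h2, h, if_neg nxy.symm, if_pos rfl, if_neg nyz, mult_ey]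
          · rw [if_neg h1, if_neg h2, h, if_neg nxz.symm, if_neg nyz.symm, if_pos rfl, mult_ez]

/-- Mahler's statement fails: for some `n ≥ 1` the list `L_n` has three consecutive rows whose
determinant has absolute value at least `2`. -/
theorem result : ∃ (n : ℕ) (L l₁ l₂ : List Entry) (x y z : Entry), 1 ≤ n ∧ IsMahlerList n L ∧
    L = l₁ ++ x :: y :: z :: l₂ ∧ 2 ≤ |det3 x.1 y.1 z.1| := by
  refine ⟨7, _, L₁, L₂, ex, ey, ez, by norm_num, isMahlerList, rfl, ?_⟩
  simp [det3, ex, ey, ez, Matrix.det_fin_three]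

end Pool.Agent.Results.MP_ca606e_nt.QuadraticFarey
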